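import Mathlib
import Pool.Agent.TH96.SL.D

/-!
# Exponents in the n-term abc inequality grow at least like n log n

For all large `n` there is an admissible `n`-tuple, all of whose terms are `±` numbers
`2 ^ a * 3 ^ b`, with `max |x_j| ≥ n ^ ((1/2 - δ) n)`; for infinitely many `n` the maximum is at
least `n ^ ((1 - δ) n)`.  Hence exponents `M_n` valid for all admissible tuples satisfy
`liminf M_n / (n log n) ≥ 1 / (2 log 6)` and `limsup M_n / (n log n) ≥ 1 / log 6`.
-/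

set_option autoImplicit false

namespace Pool.Agent.Results.MP_a95293_nt.ExponentsNLogN

open Filter Pool.Agent.TH96

/-- An admissible `n`-tuple: coprime integers with sum zero and no vanishing proper sub-sum. -/
def Admissible {n : ℕ} (x : Fin n → ℤ) : Prop :=
  Finset.univ.gcd x = 1 ∧ ∑ i, x i = 0 ∧
    ∀ I : Finset (Fin n), I.Nonempty → I ≠ Finset.univ → ∑ i ∈ I, x i ≠ 0

/-- The radical of `x_1 ⋯ x_n`: the product of the primes dividing it. -/
def rad {n : ℕ} (x : Fin n → ℤ) : ℕ := ∏ p ∈ (∏ i, x i).natAbs.primeFactors, p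

/-- `M` is a valid exponent for `n`: every admissible `n`-tuple satisfies
`max |x_j| ≤ rad(x_1 ⋯ x_n) ^ M`. -/
def Valid (n : ℕ) (M : ℝ) : Prop :=
  ∀ x : Fin n → ℤ, Admissible x → ∀ j, (|x j| : ℝ) ≤ (rad x : ℝ) ^ M

lemma tuples (r : ℚ) (hr : |SL.θ - r| < 1 / (r.den : ℝ) ^ 2) (hq : 8 ≤ r.den) (m : ℕ) :
    ∃ x : Fin (m + 2 * r.den + 2) → ℤ, Admissible x ∧ rad x ≤ 6 ∧
      ((r.den : ℝ) / 4) ^ m ≤ |(x 0 : ℝ)| := SL.tuples r hr hq m

lemma tuples_all (N : ℕ) (hN : 100 ≤ N) : ∃ T ≤ 4 * N, ∀ m : ℕ,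
    ∃ x : Fin (m + T + 2) → ℤ, Admissible x ∧ rad x ≤ 6 ∧
      (Real.sqrt N / 6) ^ m ≤ |(x 0 : ℝ)| := SL.tuples_all N hN

lemma partA (δ : ℝ) (hδ : 0 < δ) : ∀ᶠ n : ℕ in atTop, ∃ x : Fin n → ℤ,
    Admissible x ∧ rad x ≤ 6 ∧ ∃ j, (n : ℝ) ^ ((1 / 2 - δ) * n) ≤ (|x j| : ℝ) := by
  -- a small parameter
  set η : ℝ := min (δ / 10) (1 / 10) with hη
  have hη0 : 0 < η := lt_min (by positivity) (by norm_num)
  have hη6 : η ≤ 1 / 10 := min_le_right _ _
  have hηδ : η ≤ δ / 10 := min_le_left _ _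
  -- growth facts
  have hlogn : Tendsto (fun n : ℕ => Real.log n) atTop atTop :=
    Real.tendsto_log_atTop.comp tendsto_natCast_atTop_atTop
  filter_upwards [eventually_ge_atTop 3,
    hlogn.eventually_ge_atTop (Real.log (72 / η) / δ), hlogn.eventually_ge_atTop (Real.log (72 / η)),
    tendsto_natCast_atTop_atTop.eventually_ge_atTop (101 / η)] with n hn3 hn1 hn2 hn4
  have hn0 : (0 : ℝ) < n := by
    have : 0 < n := by omega
    exact_mod_cast this
  have hηn : 101 ≤ η * n := by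
    have h1 : η * (101 / η) ≤ η * n := mul_le_mul_of_nonneg_left hn4 hη0.le
    have h2 : η * (101 / η) = 101 := by
      field_simp
    linarith
  set N : ℕ := ⌊η * n⌋₊ with hN
  have hNn : (N : ℝ) ≤ η * n := Nat.floor_le (by positivity)
  have hNn' : η * n < N + 1 := Nat.lt_floor_add_one _
  have hN100 : 100 ≤ N := by
    have : (100 : ℝ) < N + 1 := by linarith
    have : (100 : ℝ) < ((N + 1 : ℕ) : ℝ) := by push_cast; exact this
    have : 100 < N + 1 := by exact_mod_cast this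
    omega
  obtain ⟨T, hT, hx⟩ := tuples_all N hN100
  have hTn : (T : ℝ) ≤ 4 * (η * n) := by
    have h1 : (T : ℝ) ≤ ((4 * N : ℕ) : ℝ) := by exact_mod_cast hT
    push_cast at h1
    linarith
  obtain ⟨m, hm⟩ : ∃ m, n = m + T + 2 := by
    refine ⟨n - (T + 2), ?_⟩
    have h1 : (T : ℝ) + 2 ≤ n := by nlinarith
    have h2 : T + 2 ≤ n := by exact_mod_cast h1
    omega
  have hmn : (1 - 5 * η) * n ≤ m := by
    have h1 : (n : ℝ) = m + T + 2 := by exact_mod_cast hm
    linarith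
  obtain ⟨x, hx1, hx2, hx3⟩ := hx m
  have hN0 : (0 : ℝ) < N := by
    have : 0 < N := by omega
    exact_mod_cast this
  have hmain : (n : ℝ) ^ ((1 / 2 - δ) * n) ≤ (Real.sqrt N / 6) ^ m := by
    have hs0 : 0 < Real.sqrt N := Real.sqrt_pos.2 hN0
    rw [← Real.log_le_log_iff (Real.rpow_pos_of_pos hn0 _) (by positivity),
      Real.log_rpow hn0, Real.log_pow]
    -- the logarithm of the base
    have h1 : Real.log n - Real.log (72 / η) ≤ 2 * Real.log (Real.sqrt N / 6) := by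
      have e1 : 2 * Real.log (Real.sqrt N / 6) = Real.log ((Real.sqrt N / 6) ^ 2) := by
        rw [Real.log_pow]
        norm_num
      rw [e1, ← Real.log_div hn0.ne' (by positivity)]
      apply Real.log_le_log (by positivity)
      rw [div_pow, Real.sq_sqrt hN0.le, div_div_eq_mul_div, div_le_div_iff₀ (by norm_num) (by norm_num)]
      have h100 : (100 : ℝ) ≤ N := by exact_mod_cast hN100
      nlinarith
    have hL0 : 0 ≤ Real.log n - Real.log (72 / η) := by linarith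
    have hL1 : Real.log (72 / η) ≤ δ * Real.log n := by
      have := (div_le_iff₀ hδ).1 hn1
      linarith
    have h72 : 0 ≤ Real.log (72 / η) := by
      apply Real.log_nonneg
      rw [le_div_iff₀ hη0]
      linarith
    have hlog0 : 0 ≤ Real.log n := by linarith
    have h2 : (1 - 5 * η) * n * (Real.log n - Real.log (72 / η)) ≤
        m * (2 * Real.log (Real.sqrt N / 6)) :=
      (mul_le_mul_of_nonneg_right hmn hL0).trans
        (mul_le_mul_of_nonneg_left h1 (Nat.cast_nonneg _))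
    have h3 : (1 - 2 * δ) * Real.log n ≤ (1 - 5 * η) * (Real.log n - Real.log (72 / η)) := by
      have h4 : 5 * η * Real.log n ≤ δ / 2 * Real.log n :=
        mul_le_mul_of_nonneg_right (by linarith) hlog0
      have h5 : (1 - 5 * η) * Real.log (72 / η) ≤ Real.log (72 / η) := by nlinarith
      have h6 : 0 ≤ δ * Real.log n := by positivity
      nlinarith
    have h4 : n * ((1 - 2 * δ) * Real.log n) ≤
        n * ((1 - 5 * η) * (Real.log n - Real.log (72 / η))) :=
      mul_le_mul_of_nonneg_left h3 hn0.le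
    nlinarith
  revert hmain
  rw [hm]
  intro hmain
  exact ⟨x, hx1, hx2, 0, hmain.trans hx3⟩

lemma partB (δ : ℝ) (hδ : 0 < δ) (B : ℕ) : ∃ n : ℕ, B ≤ n ∧ 3 ≤ n ∧
    ∃ x : Fin n → ℤ, Admissible x ∧ rad x ≤ 6 ∧
    ∃ j, (n : ℝ) ^ ((1 - δ) * n) ≤ (|x j| : ℝ) := by
  set L : ℕ := ⌈4 / δ⌉₊ + 4 with hL
  have hL4 : (4 : ℝ) ≤ L := by
    rw [hL]
    push_cast
    have : (0 : ℝ) ≤ (⌈4 / δ⌉₊ : ℝ) := Nat.cast_nonneg _
    linarith
  have hδL : 4 ≤ δ * L := by
    have h1 : 4 / δ ≤ (⌈4 / δ⌉₊ : ℝ) := Nat.le_ceil _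
    have h2 : 4 / δ ≤ (L : ℝ) := by
      rw [hL]
      push_cast
      linarith
    rw [div_le_iff₀ hδ] at h2
    linarith
  obtain ⟨r, hr1, hr2⟩ := SL.exists_good (B + (4 * L) ^ L + 8)
  set q := r.den with hq
  have hL4N : 4 ≤ L := by omega
  have hqpos : 0 < q := by omega
  have hq0 : (0 : ℝ) < q := by exact_mod_cast hqpos
  have hL0 : (0 : ℝ) < L := by linarith
  obtain ⟨m, hm⟩ : ∃ m, L * q = m + 2 * q + 2 := by
    refine ⟨L * q - (2 * q + 2), ?_⟩
    have : 4 * q ≤ L * q := Nat.mul_le_mul_right _ hL4N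
    omega
  have hmL : (L - 3 : ℝ) * q ≤ m := by
    have h1 : (L : ℝ) * q = m + 2 * q + 2 := by exact_mod_cast hm
    have h2 : (8 : ℝ) ≤ q := by
      have : 8 ≤ q := by omega
      exact_mod_cast this
    nlinarith
  have hBn : B ≤ L * q := by
    calc B ≤ q := by omega
      _ = 1 * q := by ring
      _ ≤ L * q := Nat.mul_le_mul_right _ (by omega)
  have h3n : 3 ≤ L * q := by
    have : 4 * 1 ≤ L * q := Nat.mul_le_mul hL4N hqpos
    omega
  have hlogq : (L : ℝ) * (Real.log 4 + Real.log L) ≤ Real.log q := by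
    have h1 : ((4 * L : ℕ) : ℝ) ^ L ≤ q := by
      have : (4 * L) ^ L ≤ q := by omega
      exact_mod_cast this
    have h2 := Real.log_le_log (by positivity) h1
    rw [Real.log_pow] at h2
    push_cast at h2
    rwa [Real.log_mul (by norm_num) hL0.ne'] at h2
  have hlogL : 0 ≤ Real.log L := Real.log_nonneg (by linarith)
  have hlog4 : 0 ≤ Real.log 4 := Real.log_nonneg (by norm_num)
  have hlogq0 : 0 ≤ Real.log q := by
    have : 0 ≤ (L : ℝ) * (Real.log 4 + Real.log L) := by positivity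
    linarith
  obtain ⟨x, hx1, hx2, hx3⟩ := tuples r hr2 (by omega) m
  have hmain : ((L * q : ℕ) : ℝ) ^ ((1 - δ) * ((L * q : ℕ) : ℝ)) ≤ ((q : ℝ) / 4) ^ m := by
    have hn0 : (0 : ℝ) < ((L * q : ℕ) : ℝ) := by
      push_cast
      positivity
    have hq40 : (0 : ℝ) < (q : ℝ) / 4 := by positivity
    rw [← Real.log_le_log_iff (Real.rpow_pos_of_pos hn0 _) (by positivity),
      Real.log_rpow hn0, Real.log_pow, Real.log_div hq0.ne' (by norm_num)]
    push_cast
    rw [Real.log_mul hL0.ne' hq0.ne']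
    -- both sides divided by `q`
    have e1 : (1 - δ) * ((L : ℝ) * q) * (Real.log L + Real.log q) ≤
        (L - 4 : ℝ) * q * (Real.log L + Real.log q) := by
      apply mul_le_mul_of_nonneg_right _ (by linarith)
      have : (1 - δ) * (L : ℝ) ≤ L - 4 := by linarith
      calc (1 - δ) * ((L : ℝ) * q) = (1 - δ) * L * q := by ring
        _ ≤ (L - 4) * q := mul_le_mul_of_nonneg_right this hq0.le
    have e2 : (L - 4 : ℝ) * (Real.log L + Real.log q) ≤ (L - 3 : ℝ) * (Real.log q - Real.log 4) := by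
      have e3 : (L - 4 : ℝ) * Real.log L ≤ L * Real.log L :=
        mul_le_mul_of_nonneg_right (by linarith) hlogL
      have e4 : (L - 3 : ℝ) * Real.log 4 ≤ L * Real.log 4 :=
        mul_le_mul_of_nonneg_right (by linarith) hlog4
      nlinarith
    have e5 : Real.log 4 ≤ Real.log q := by
      have : (1 : ℝ) * Real.log 4 ≤ L * (Real.log 4 + Real.log L) :=
        mul_le_mul (by linarith) (by linarith) hlog4 hL0.le
      linarith
    have e6 : (L - 3 : ℝ) * q * (Real.log q - Real.log 4) ≤ m * (Real.log q - Real.log 4) :=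
      mul_le_mul_of_nonneg_right hmL (by linarith)
    have e7 : (L - 4 : ℝ) * q * (Real.log L + Real.log q) ≤
        (L - 3 : ℝ) * q * (Real.log q - Real.log 4) := by
      calc (L - 4 : ℝ) * q * (Real.log L + Real.log q)
          = q * ((L - 4 : ℝ) * (Real.log L + Real.log q)) := by ring
        _ ≤ q * ((L - 3 : ℝ) * (Real.log q - Real.log 4)) := mul_le_mul_of_nonneg_left e2 hq0.le
        _ = _ := by ring
    linarith
  refine ⟨L * q, hBn, h3n, ?_⟩
  revert hmain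
  rw [hm]
  intro hmain
  exact ⟨x, hx1, hx2, 0, hmain.trans hx3⟩

lemma one_le_rad {n : ℕ} (x : Fin n → ℤ) : 1 ≤ rad x := by
  unfold rad
  apply Finset.one_le_prod'
  intro p hp
  exact (Nat.prime_of_mem_primeFactors hp).one_lt.le

/-- A valid exponent is at least the exponent of any example with radical at most `6`. -/
lemma valid_lower {n : ℕ} {M K : ℝ} (hM : Valid n M) (hK : 0 < K)
    (h : ∃ x : Fin n → ℤ, Admissible x ∧ rad x ≤ 6 ∧ ∃ j, (6 : ℝ) ^ K ≤ (|x j| : ℝ)) :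
    K ≤ M := by
  obtain ⟨x, hx1, hx2, j, hj⟩ := h
  have h1 := hj.trans (hM x hx1 j)
  have h2 : (1 : ℝ) ≤ rad x := by exact_mod_cast one_le_rad x
  have h3 : (rad x : ℝ) ≤ 6 := by exact_mod_cast hx2
  rcases le_or_gt 0 M with h0 | h0
  · have h4 : (6 : ℝ) ^ K ≤ 6 ^ M := h1.trans (Real.rpow_le_rpow (by linarith) h3 h0)
    exact (Real.rpow_le_rpow_left_iff (by norm_num)).1 h4
  · have h4 : (6 : ℝ) ^ K ≤ 1 := h1.trans (Real.rpow_le_one_of_one_le_of_nonpos h2 h0.le)
    exfalso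
    have : (1 : ℝ) < 6 ^ K := Real.one_lt_rpow (by norm_num) hK
    linarith

/-- Exponents valid for all admissible `n`-tuples grow at least like `n log n`. -/
theorem result :
    -- for all large `n`: tuples with radical at most `6` and maximum `≥ n ^ ((1/2 - δ) n)`
    (∀ δ : ℝ, 0 < δ → ∀ᶠ n : ℕ in atTop, ∃ x : Fin n → ℤ,
      Admissible x ∧ rad x ≤ 6 ∧ ∃ j, (n : ℝ) ^ ((1 / 2 - δ) * n) ≤ (|x j| : ℝ)) ∧
    -- for infinitely many `n`: tuples with radical at most `6` and maximum `≥ n ^ ((1 - δ) n)`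
    (∀ δ : ℝ, 0 < δ → ∃ᶠ n : ℕ in atTop, ∃ x : Fin n → ℤ,
      Admissible x ∧ rad x ≤ 6 ∧ ∃ j, (n : ℝ) ^ ((1 - δ) * n) ≤ (|x j| : ℝ)) ∧
    -- lower bounds for valid exponents, for all large `n` and for infinitely many `n`
    (∀ c : ℝ, c < 1 / Real.log 6 →
      (∀ᶠ n : ℕ in atTop, ∀ M : ℝ, Valid n M → c / 2 * n * Real.log n ≤ M) ∧
      (∃ᶠ n : ℕ in atTop, ∀ M : ℝ, Valid n M → c * n * Real.log n ≤ M)) ∧
    -- in particular no linear function of `n`, such as `2n - 5 + ε`, is valid for large `n`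
    (∀ C : ℝ, ∀ᶠ n : ℕ in atTop, ¬ Valid n (C * n)) := by
  have hlog6 : 0 < Real.log 6 := Real.log_pos (by norm_num)
  have hlogn : Tendsto (fun n : ℕ => Real.log n) atTop atTop :=
    Real.tendsto_log_atTop.comp tendsto_natCast_atTop_atTop
  have hB : ∀ δ : ℝ, 0 < δ → ∃ᶠ n : ℕ in atTop, ∃ x : Fin n → ℤ,
      Admissible x ∧ rad x ≤ 6 ∧ ∃ j, (n : ℝ) ^ ((1 - δ) * n) ≤ (|x j| : ℝ) := by
    intro δ hδ
    rw [frequently_atTop]
    intro B
    obtain ⟨n, hn, _, hx⟩ := partB δ hδ B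
    exact ⟨n, hn, hx⟩
  -- conversion to exponents
  have hconv : ∀ c κ : ℝ, c < 1 / Real.log 6 → 0 < κ → ∃ δ : ℝ, 0 < δ ∧ ∀ n : ℕ, 1 < n →
      ∀ x : Fin n → ℤ, (∃ j, (n : ℝ) ^ ((κ - δ) * n) ≤ (|x j| : ℝ)) →
        ∃ K : ℝ, 0 < K ∧ κ * c * n * Real.log n ≤ K ∧ ∃ j, (6 : ℝ) ^ K ≤ (|x j| : ℝ) := by
    intro c κ hc hκ
    set c' : ℝ := max c (1 / (2 * Real.log 6)) with hc'
    have hc'0 : 0 < c' := lt_of_lt_of_le (by positivity) (le_max_right _ _)
    have hc'1 : c' < 1 / Real.log 6 := by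
      apply max_lt hc
      apply one_div_lt_one_div_of_lt hlog6
      linarith
    have hc'2 : c' * Real.log 6 < 1 := by
      rwa [lt_div_iff₀ hlog6] at hc'1
    refine ⟨κ * (1 - c' * Real.log 6), mul_pos hκ (by linarith), ?_⟩
    intro n hn x hx
    obtain ⟨j, hj⟩ := hx
    have hn1 : (1 : ℝ) < n := by exact_mod_cast hn
    have hn0 : (0 : ℝ) < n := by linarith
    have hΛl : 0 < Real.log n := Real.log_pos hn1
    refine ⟨κ * c' * n * Real.log n, by positivity, ?_, j, ?_⟩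
    · have : c ≤ c' := le_max_left _ _
      have h1 : c * (κ * n * Real.log n) ≤ c' * (κ * n * Real.log n) :=
        mul_le_mul_of_nonneg_right this (by positivity)
      linarith
    · refine le_trans (le_of_eq ?_) hj
      rw [Real.rpow_def_of_pos (by norm_num : (0 : ℝ) < 6), Real.rpow_def_of_pos hn0]
      congr 1
      ring
  have h3 : ∀ c : ℝ, c < 1 / Real.log 6 →
      (∀ᶠ n : ℕ in atTop, ∀ M : ℝ, Valid n M → c / 2 * n * Real.log n ≤ M) ∧
      (∃ᶠ n : ℕ in atTop, ∀ M : ℝ, Valid n M → c * n * Real.log n ≤ M) := by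
    intro c hc
    constructor
    · obtain ⟨δ, hδ, hcon⟩ := hconv c (1 / 2) hc (by norm_num)
      filter_upwards [partA δ hδ, eventually_gt_atTop 1] with n hx hn M hM
      obtain ⟨x, hx1, hx2, hx3⟩ := hx
      obtain ⟨K, hK0, hK1, hK2⟩ := hcon n hn x hx3
      have h4 := hK1.trans (valid_lower hM hK0 ⟨x, hx1, hx2, hK2⟩)
      linarith
    · obtain ⟨δ, hδ, hcon⟩ := hconv c 1 hc (by norm_num)
      refine ((hB δ hδ).and_eventually (eventually_gt_atTop 1)).mono ?_
      rintro n ⟨⟨x, hx1, hx2, hx3⟩, hn⟩ M hM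
      obtain ⟨K, hK0, hK1, hK2⟩ := hcon n hn x hx3
      have h4 := hK1.trans (valid_lower hM hK0 ⟨x, hx1, hx2, hK2⟩)
      linarith
  refine ⟨partA, hB, h3, ?_⟩
  intro C
  have hc : 1 / (2 * Real.log 6) < 1 / Real.log 6 := by
    apply one_div_lt_one_div_of_lt hlog6
    linarith
  filter_upwards [(h3 _ hc).1, hlogn.eventually_gt_atTop (C * (4 * Real.log 6)),
    eventually_gt_atTop 0] with n hn1 hn2 hn3 hval
  have h4 := hn1 _ hval
  have hn0 : (0 : ℝ) < n := by exact_mod_cast hn3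
  have h5 : C < 1 / (4 * Real.log 6) * Real.log n := by
    rw [one_div, inv_mul_eq_div, lt_div_iff₀ (by positivity)]
    exact hn2
  have h6 : C * n < 1 / (4 * Real.log 6) * Real.log n * n :=
    mul_lt_mul_of_pos_right h5 hn0
  have h7 : 1 / (2 * Real.log 6) / 2 * n * Real.log n =
      1 / (4 * Real.log 6) * Real.log n * n := by ring
  linarith

end Pool.Agent.Results.MP_a95293_nt.ExponentsNLogN
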