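import Mathlib
import Pool.Agent.TH876.TM.Ext
import Pool.Agent.TH876.TM.Local
import Pool.Agent.TH876.TM.Glob
import Pool.Agent.TH876.TM.Scale
import Pool.Agent.TH876.TM.Count
import Pool.Agent.TH876.TM.MeetN
import Pool.Agent.TH876.TM.ValN
import Pool.Agent.TH876.TM.Curve
import Pool.Agent.TH876.TM.Tuples

/-!
# The n-term abc conjecture: tuples on a rational curve

We count the `n`-tuples of coprime nonzero integers on a given rational curve which violate
`max |z i| ≤ c rad (z 0 ⋯ z (n-1)) ^ M`.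
-/

set_option autoImplicit false

namespace Pool.Agent.Results.MP_a95293_nt.TuplesOnRationalCurves

open Polynomial

open Classical in
/-- the number of the different points of the projective line over an algebraic closure at which the
curve `t ↦ (P 0 (t) : ... : P (n-1) (t))` meets the coordinate hyperplanes (infinity is one of them
if the degrees of the `P i` are not all equal) -/
noncomputable def zeros {K : Type} [Field K] {n : ℕ} (P : Fin n → K[X]) : ℕ :=
  ((∏ i, P i).map (algebraMap K (AlgebraicClosure K))).roots.toFinset.card +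
    if ∃ i j, (P i).natDegree < (P j).natDegree then 1 else 0

/-- the `n`-tuples of nonzero integers with greatest common divisor one, with `|z i| ≤ B`, with
primes at most `y` only dividing the product of the `z i`, proportional to
`(P 0 (t), ..., P (n-1) (t))` for some rational `t`, which violate `max |z i| ≤ c rad ^ M` -/
def Tuples {n : ℕ} (P : Fin n → ℚ[X]) (M c y B : ℝ) : Set (Fin n → ℤ) :=
  {z | (∀ i, z i ≠ 0) ∧ (∀ d : ℤ, (∀ i, d ∣ z i) → IsUnit d) ∧
    (∃ t r : ℚ, ∀ i, (z i : ℚ) = r * (P i).eval t) ∧ (∀ i, |(z i : ℝ)| ≤ B) ∧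
    (∀ p ∈ (∏ i, z i).natAbs.primeFactors, (p : ℝ) ≤ y) ∧
    ∃ i, c * ((∏ p ∈ (∏ i, z i).natAbs.primeFactors, p : ℕ) : ℝ) ^ M < |(z i : ℝ)|}

/-- Let `P 0, ..., P (n-1)` be nonzero polynomials over `ℚ` without a common zero such that the
curve `t ↦ (P 0 (t) : ... : P (n-1) (t))` meets the coordinate hyperplanes in `q ≥ 3` different
points, and `M, c, δ > 0`. For all `y, B ≥ 1` there are at most `C y B ^ (2 / (q M) + δ)` `n`-tuples
of nonzero integers with greatest common divisor one and `|z i| ≤ B` which are proportional to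
`(P 0 (t), ..., P (n-1) (t))` for some rational `t`, whose product has prime factors at most `y`
only, and which violate `max |z i| ≤ c rad (z 0 ⋯ z (n-1)) ^ M`. -/
theorem result (n : ℕ) (P : Fin n → ℚ[X]) (hP : ∀ i, P i ≠ 0)
    (hu : ∃ u : Fin n → ℚ[X], ∑ i, u i * P i = 1) (hq : 3 ≤ zeros P)
    (M c δ : ℝ) (hM : 0 < M) (hc : 0 < c) (hδ : 0 < δ) :
    ∃ C : ℝ, ∀ y B : ℝ, 1 ≤ y → 1 ≤ B → (Tuples P M c y B).Finite ∧
      ((Tuples P M c y B).ncard : ℝ) ≤ C * y * B ^ (2 / ((zeros P : ℝ) * M) + δ) :=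
  Pool.Agent.TH876.TM.tuples (Pool.Agent.TH876.TM.curve (fun K _ _ => Pool.Agent.TH876.TM.count K
    (Pool.Agent.TH876.TM.local_sys K (Pool.Agent.TH876.TM.ext K)) (Pool.Agent.TH876.TM.glob K)
    (Pool.Agent.TH876.TM.scale K (Pool.Agent.TH876.TM.glob K)))
    Pool.Agent.TH876.TM.meetN Pool.Agent.TH876.TM.valN) n P hP hu hq M c δ hM hc hδ

end Pool.Agent.Results.MP_a95293_nt.TuplesOnRationalCurves
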